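import Pool.Agent.Helper14_XQ.Nlc
import Pool.Agent.Helper69_AEU.Per

/-!
Squad XQ, module ALX.
-/

set_option autoImplicit false

namespace Pool.Agent.XQ.H14

open MeasureTheory Complex Filter Topology Pool.Agent.H62T
open Pool.Agent.H16F (Sublin)
open Pool.Agent.AEU
open Pool.Agent.AEU.H51 (ip_add ip_rmul ip_self ip_sq_dt ip_vx₁ ip_vx₂ acute_dep)

theorem acute_dt {a b c : ℂ} (ha : ‖a‖ = 1) (hb : ‖b‖ = 1) (hab : ip a b < 0)
    (hac : ip a c < 0) (hbc : ip b c < 0) : dt a b ≠ 0 := by
  intro h0
  have h1 := ip_sq_dt a b ha hb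
  rw [h0] at h1
  have h2 : ip a b = -1 := by nlinarith only [h1, hab]
  have n1 := ip_self a ha
  have n2 := ip_self b hb
  simp only [ip] at h2 n1 n2 hac hbc
  have z1 : a.re + b.re = 0 := by nlinarith only [h2, n1, n2, sq_nonneg (a.re + b.re), sq_nonneg (a.im + b.im)]
  have z2 : a.im + b.im = 0 := by nlinarith only [h2, n1, n2, sq_nonneg (a.re + b.re), sq_nonneg (a.im + b.im)]
  have y1 : b.re = -a.re := by linarith
  have y2 : b.im = -a.im := by linarith
  rw [y1, y2] at hbc
  linarith

theorem acute_np {S : Finset HP} (hu : ∀ s ∈ S, ‖s.1‖ = 1) (h3 : S.card = 3) (hA : Acute S) :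
    Np S := by
  classical
  intro s hs t ht hst
  have hc : ((S.erase s).erase t).card = 1 := by
    rw [Finset.card_erase_of_mem (Finset.mem_erase.2 ⟨hst.symm, ht⟩), Finset.card_erase_of_mem hs,
      h3]
  obtain ⟨r, hr⟩ := Finset.card_eq_one.1 hc
  have hr' : r ∈ (S.erase s).erase t := by rw [hr]; simp
  obtain ⟨hrt, hr2⟩ := Finset.mem_erase.1 hr'
  obtain ⟨hrs, hrS⟩ := Finset.mem_erase.1 hr2
  exact acute_dt (hu s hs) (hu t ht) (hA s hs t ht hst) (hA s hs r hrS hrs.symm)
    (hA t ht r hrS hrt.symm)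

theorem hf2 (v f w : ℂ) : hf ![v, f] w = max (ip w v) (ip w f) := by
  have H := AEU.H69.hul 1 ![v, f]
  apply le_antisymm
  · refine (H.2.2.2.2.1 w _).2 fun k => ?_
    fin_cases k
    · exact le_max_left _ _
    · exact le_max_right _ _
  · exact max_le (H.2.1 0 w) (H.2.1 1 w)

theorem ip_I_self (a : ℂ) : ip a (I * a) = 0 := by
  simp only [ip, Complex.mul_re, Complex.mul_im, Complex.I_re, Complex.I_im]; ring

theorem ip_I (a b : ℂ) : ip a (I * b) = -dt a b := by
  simp only [ip, dt, Complex.mul_re, Complex.mul_im, Complex.I_re, Complex.I_im]; ring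

theorem abs_ip_le {a b : ℂ} (ha : ‖a‖ = 1) (hb : ‖b‖ = 1) : |ip a b| ≤ 1 := by
  have := ip_sq_dt a b ha hb
  rw [abs_le]
  constructor <;> nlinarith [sq_nonneg (dt a b), sq_nonneg (ip a b)]

theorem zero_of_ip {a b x : ℂ} (h : dt a b ≠ 0) (h1 : ip a x = 0) (h2 : ip b x = 0) : x = 0 := by
  simp only [ip, dt] at *
  have e1 : (a.re * b.im - a.im * b.re) * x.re = 0 := by linear_combination b.im * h1 - a.im * h2
  have e2 : (a.re * b.im - a.im * b.re) * x.im = 0 := by linear_combination a.re * h2 - b.re * h1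
  apply Complex.ext
  · exact (mul_eq_zero.1 e1).resolve_left h
  · exact (mul_eq_zero.1 e2).resolve_left h

theorem alx (hvxx : VxxStatement) (hnlc : NlcStatement) : AlxStatement := by
  classical
  intro X Y L T c K H S hSX h3 hA hLe hM hTB i j q hS
  have hu : ∀ s ∈ S, ‖s.1‖ = 1 := fun s hs => H.env.pg.unit s (hSX hs)
  have hNp := acute_np hu h3 hA
  have V := hvxx X H.env.pg
  have hi : i ∈ S := by rw [hS]; simp
  have hj : j ∈ S := by rw [hS]; simp
  have hq : q ∈ S := by rw [hS]; simp
  obtain ⟨hij, hiq, hjq⟩ := card3 (hS ▸ h3)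
  have ui := hu i hi
  have uj := hu j hj
  have uq := hu q hq
  have aij := hA i hi j hj hij
  have aiq := hA i hi q hq hiq
  have ajq := hA j hj q hq hjq
  have hd := hNp i hi j hj hij
  set v := vx i j with hv
  have v1 : ip i.1 v = i.2 := ip_vx₁ hd
  have v2 : ip j.1 v = j.2 := ip_vx₂ hd
  obtain ⟨α, β, γ, hα, hβ, hγ, hdep⟩ := acute_dep ui uj uq aij aiq ajq
  set a := q.2 - ip q.1 v with ha
  -- the altitude is positive
  have pos : 0 < a := by
    obtain ⟨h₀, hs₀, hF₀, hS₀, -⟩ := hLe
    obtain ⟨x, hx, -⟩ := (AEU.H69.sup h₀ hs₀).2.2.2 i.1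
    have hxi : ip i.1 x ≤ i.2 := (hx i.1).trans_eq (mem_touch.1 (hS₀ hi)).2
    have hxj : ip j.1 x ≤ j.2 := (hx j.1).trans_eq (mem_touch.1 (hS₀ hj)).2
    have hxq : ip q.1 x ≤ q.2 := (hx q.1).trans_eq (mem_touch.1 (hS₀ hq)).2
    have e1 := hdep v
    have e2 := hdep x
    rw [v1, v2] at e1
    have e3 : γ * a = α * (i.2 - ip i.1 x) + β * (j.2 - ip j.1 x) + γ * (q.2 - ip q.1 x) := by
      rw [ha]; linear_combination e2 - e1
    have p1 : 0 ≤ α * (i.2 - ip i.1 x) := mul_nonneg hα.le (by linarith)
    have p2 : 0 ≤ β * (j.2 - ip j.1 x) := mul_nonneg hβ.le (by linarith)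
    have p3 : 0 ≤ γ * (q.2 - ip q.1 x) := mul_nonneg hγ.le (by linarith)
    by_contra hn
    have hn' : γ * a ≤ 0 := mul_nonpos_of_nonneg_of_nonpos hγ.le (not_lt.1 hn)
    have z1 : α * (i.2 - ip i.1 x) = 0 := by linarith
    have z2 : β * (j.2 - ip j.1 x) = 0 := by linarith
    have z3 : γ * (q.2 - ip q.1 x) = 0 := by linarith
    have y1 : ip i.1 x = i.2 := by
      have := (mul_eq_zero.1 z1).resolve_left hα.ne'; linarith
    have y2 : ip j.1 x = j.2 := by
      have := (mul_eq_zero.1 z2).resolve_left hβ.ne'; linarith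
    have y3 : ip q.1 x = q.2 := by
      have := (mul_eq_zero.1 z3).resolve_left hγ.ne'; linarith
    have hxC : x ∈ Cl X := V.2.2.2.2.2.2.1 h₀ hF₀ x hx
    rcases V.1 i j x ⟨hxC, hSX hi, hSX hj, hij, y1, y2⟩ q (hSX hq) y3 with h | h
    · exact hiq h.symm
    · exact hjq h.symm
  set f := v + (a : ℂ) * q.1 with hf'
  have f1 : ip i.1 f < i.2 := by
    rw [hf', ip_add, ip_rmul, v1]; nlinarith only [aiq, pos]
  have f2 : ip j.1 f < j.2 := by
    rw [hf', ip_add, ip_rmul, v2]; nlinarith only [ajq, pos]
  have f3 : ip q.1 f = q.2 := by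
    rw [hf', ip_add, ip_rmul, ip_self _ uq, ha]; ring
  have hlam : lam (hf ![v, f]) = 2 * a := by
    rw [AEU.H69.per.1 v f]
    have : v - f = -((a : ℂ) * q.1) := by rw [hf']; ring
    rw [this, norm_neg, norm_mul, Complex.norm_real, uq, Real.norm_of_nonneg pos.le, mul_one]
  have sA : Sublin (hf ![v, f]) := (AEU.H69.hul 1 ![v, f]).1
  have htch : ∀ s ∈ S, hf ![v, f] s.1 = s.2 := by
    intro s hs
    rw [hS] at hs
    simp only [Finset.mem_insert, Finset.mem_singleton] at hs
    rcases hs with rfl | rfl | rfl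
    · rw [hf2, v1]; exact max_eq_left f1.le
    · rw [hf2, v2]; exact max_eq_left f2.le
    · rw [hf2, f3]; exact max_eq_right (by linarith)
  obtain ⟨hN1, δ, hδ, hN2⟩ := hnlc X Y L T c K H S hSX h3 hNp hLe hM hTB
  have hSt : S ⊆ touch X (hf ![v, f]) := fun s hs => mem_touch.2 ⟨hSX hs, htch s hs⟩
  -- the altitude fits
  have hfit : a ≤ L / 2 → Fits X (hf ![v, f]) := by
    intro hle
    have hl : lam (hf ![v, f]) ≤ L := by rw [hlam]; linarith
    have hEv := (hN2 _ sA (by linarith)).2 ⟨1, 0, one_pos, le_rfl, fun s hs => by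
      rw [htch s hs]; simp [ip]⟩
    obtain ⟨σ, x, hσ0, hσ1, hFr, hTr⟩ := hEv
    have key : ∀ s ∈ S, σ * s.2 + ip s.1 x = s.2 := by
      intro s hs
      have h1 := (mem_touch.1 (hTr ▸ hs : s ∈ touch _ _)).2
      rw [htch s hs] at h1
      exact h1
    have k1 := key i hi
    have k2 := key j hj
    have k3 := key q hq
    have e1 := hdep v
    have e2 := hdep x
    rw [v1, v2] at e1
    have e3 : (1 - σ) * (γ * a) = 0 := by
      rw [ha]; linear_combination -(α * k1) - β * k2 - γ * k3 + e2 - (1 - σ) * e1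
    have hσ : σ = 1 := by
      have := (mul_eq_zero.1 e3).resolve_right (mul_pos hγ pos).ne'
      linarith
    have hx0 : x = 0 := zero_of_ip hd (by rw [hσ] at k1; linarith) (by rw [hσ] at k2; linarith)
    have hFr' : Fits (rlx X T c S) (hf ![v, f]) := by
      intro s hs
      have := hFr s hs
      rw [hσ, hx0] at this
      simpa [ip] using this
    exact (hN1 _ sA hFr' hSt hl).1
  have hVx : Fits X (hf ![v, f]) → VxOf X i j v := fun hF =>
    ⟨V.2.2.2.2.2.2.1 _ hF v ((AEU.H69.hul 1 ![v, f]).2.1 0), hSX hi, hSX hj, hij, v1, v2⟩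
  have hSp : Fits X (hf ![v, f]) → Special X (hf ![v, f]) := fun hF =>
    ⟨sA, hF, h3 ▸ Finset.card_le_card hSt,
      Or.inl ⟨v, ⟨i, j, hVx hF⟩, (AEU.H69.hul 1 ![v, f]).2.1 0⟩⟩
  constructor
  · by_contra hcon
    have hlt : a < L / 2 := not_le.1 hcon
    have hF := hfit hlt.le
    have hl : lam (hf ![v, f]) < L := by rw [hlam]; linarith
    obtain ⟨g, hg⟩ := H.env.all _ (hSp hF) hl
    exact hM ⟨hSX, h3, _, g, hSp hF, hg, hSt, Or.inl hl⟩
  · intro haL
    have hF := hfit haL.le
    have hl : lam (hf ![v, f]) = L := by rw [hlam]; linarith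
    have hfC : f ∈ Cl X := V.2.2.2.2.2.2.1 _ hF f ((AEU.H69.hul 1 ![v, f]).2.1 1)
    have hinner : ∀ s ∈ X, s ≠ q → ip s.1 f < s.2 := by
      intro s hs hsq
      refine lt_of_le_of_ne (hfC s hs) fun heq => ?_
      have hsi : s ≠ i := by rintro rfl; exact f1.ne heq
      have hsj : s ≠ j := by rintro rfl; exact f2.ne heq
      have hsS : s ∉ S := by
        rw [hS]; simp only [Finset.mem_insert, Finset.mem_singleton]; tauto
      have hst : s ∈ touch X (hf ![v, f]) := mem_touch.2 ⟨hs, le_antisymm (hF s hs) (by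
        rw [hf2, ← heq]; exact le_max_right _ _)⟩
      have hins : insert s S ⊆ touch X (hf ![v, f]) := Finset.insert_subset hst hSt
      have hc4 : (insert s S).card = 4 := by rw [Finset.card_insert_of_notMem hsS, h3]
      have h4 : 4 ≤ (touch X (hf ![v, f])).card := hc4 ▸ Finset.card_le_card hins
      by_cases hU : Unl X Y (hf ![v, f])
      · obtain ⟨hFT, -⟩ := H.t' _ hU hl h4
        obtain ⟨-, tc, -⟩ := H.t _ hFT
        have hF4 := tc.card
        have e : insert s S = touch X (hf ![v, f]) :=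
          Finset.eq_of_subset_of_card_le hins (by omega)
        rw [← e] at tc
        set cs := c (insert s S) with hcs
        set m := ip s.1 (I * q.1) with hm
        have hsv : ip s.1 v < s.2 := V.2.1 i j v (hVx hF) s hs hsi hsj
        have uIq : ‖I * q.1‖ = 1 := by rw [norm_mul, Complex.norm_I, uq, one_mul]
        have us := H.env.pg.unit s hs
        -- the main inequality
        have main : ∀ ε : ℝ, |ε| ≤ i.2 - ip i.1 f → |ε| ≤ j.2 - ip j.1 f → |ε| ≤ s.2 - ip s.1 v →
            cs s * (ε * m) ≤ ε ^ 2 / a := by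
          intro ε h1 h2 h4'
          set f' := f + (ε : ℂ) * (I * q.1) with hf''
          have ipf : ∀ w : ℂ, ip w f' = ip w f + ε * ip w (I * q.1) := by
            intro w; rw [hf'', ip_add, ip_rmul]
          have bnd : ∀ w : ℂ, ‖w‖ = 1 → |ε * ip w (I * q.1)| ≤ |ε| := by
            intro w hw
            rw [abs_mul]
            exact mul_le_of_le_one_right (abs_nonneg _) (abs_ip_le hw uIq)
          have vi' : hf ![v, f'] i.1 = i.2 := by
            rw [hf2, v1, ipf]
            have := (abs_le.1 (bnd i.1 ui)).2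
            exact max_eq_left (by linarith)
          have vj' : hf ![v, f'] j.1 = j.2 := by
            rw [hf2, v2, ipf]
            have := (abs_le.1 (bnd j.1 uj)).2
            exact max_eq_left (by linarith)
          have vq' : hf ![v, f'] q.1 = q.2 := by
            rw [hf2, ipf, f3, ip_I_self, mul_zero, add_zero]
            exact max_eq_right (by linarith)
          have vs' : hf ![v, f'] s.1 = s.2 + ε * m := by
            rw [hf2, ipf, heq, ← hm]
            have := (abs_le.1 (bnd s.1 us)).1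
            rw [← hm] at this
            exact max_eq_right (by linarith)
          have cert := tc.cert (hf ![v, f']) (AEU.H69.hul 1 ![v, f']).1
          have val := tc.val
          have hsij : s ∉ ({i, j, q} : Finset HP) := by rw [← hS]; exact hsS
          have hi' : i ∉ ({j, q} : Finset HP) := by
            simp only [Finset.mem_insert, Finset.mem_singleton]; tauto
          have hj' : j ∉ ({q} : Finset HP) := by
            simp only [Finset.mem_singleton]; exact hjq
          rw [Finset.sum_insert hsS, hS, Finset.sum_insert hi', Finset.sum_insert hj',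
            Finset.sum_singleton, vi', vj', vq', vs'] at cert
          rw [Finset.sum_insert hsS, hS, Finset.sum_insert hi', Finset.sum_insert hj',
            Finset.sum_singleton] at val
          have hlam' : lam (hf ![v, f']) = 2 * ‖(a : ℂ) + (ε : ℂ) * I‖ := by
            rw [AEU.H69.per.1 v f']
            have : v - f' = -(((a : ℂ) + (ε : ℂ) * I) * q.1) := by rw [hf'', hf']; ring
            rw [this, norm_neg, norm_mul, uq, mul_one]
          have hn : ‖(a : ℂ) + (ε : ℂ) * I‖ ≤ a + ε ^ 2 / (2 * a) := by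
            have e1 : ‖(a : ℂ) + (ε : ℂ) * I‖ ^ 2 = a ^ 2 + ε ^ 2 := by
              rw [Complex.sq_norm, Complex.normSq_add_mul_I]
            have e2 : 0 ≤ a + ε ^ 2 / (2 * a) := by positivity
            have e3 : a ^ 2 + ε ^ 2 ≤ (a + ε ^ 2 / (2 * a)) ^ 2 := by
              have : (a + ε ^ 2 / (2 * a)) ^ 2 = a ^ 2 + ε ^ 2 + (ε ^ 2 / (2 * a)) ^ 2 := by
                field_simp; ring
              rw [this]
              linarith only [sq_nonneg (ε ^ 2 / (2 * a))]
            exact abs_le_of_sq_le_sq' (by rw [e1]; exact e3) e2 |>.2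
          rw [hlam'] at cert
          have e4 : 2 * (a + ε ^ 2 / (2 * a)) = L + ε ^ 2 / a := by
            have : L = 2 * a := by linarith only [haL]
            rw [this]; field_simp
          linarith
        -- choice of ε
        set κ := cs s * m with hκ
        have hκ0 : κ = 0 := by
          by_contra hne
          have d1 : 0 < i.2 - ip i.1 f := by linarith
          have d2 : 0 < j.2 - ip j.1 f := by linarith
          have d3 : 0 < s.2 - ip s.1 v := by linarith
          set e0 := min (i.2 - ip i.1 f) (min (j.2 - ip j.1 f) (s.2 - ip s.1 v)) with he0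
          have he0p : 0 < e0 := lt_min d1 (lt_min d2 d3)
          have q1 : e0 ≤ i.2 - ip i.1 f := min_le_left _ _
          have q2 : e0 ≤ j.2 - ip j.1 f := (min_le_right _ _).trans (min_le_left _ _)
          have q3 : e0 ≤ s.2 - ip s.1 v := (min_le_right _ _).trans (min_le_right _ _)
          have hκp : 0 < |κ| + 1 := by positivity
          set r := min (a / 2) (e0 / (|κ| + 1)) with hr
          have hrp : 0 < r := lt_min (by linarith) (div_pos he0p hκp)
          have hra : r ≤ a / 2 := min_le_left _ _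
          have hre : |κ * r| ≤ e0 := by
            rw [abs_mul, abs_of_pos hrp]
            have : r ≤ e0 / (|κ| + 1) := min_le_right _ _
            calc |κ| * r ≤ (|κ| + 1) * (e0 / (|κ| + 1)) := by
                  apply mul_le_mul (by linarith) this hrp.le hκp.le
              _ = e0 := by field_simp
          have hmain := main (κ * r) (hre.trans q1) (hre.trans q2) (hre.trans q3)
          have e1 : cs s * (κ * r * m) = κ ^ 2 * r := by rw [hκ]; ring
          have e2 : (κ * r) ^ 2 / a = κ ^ 2 * r * (r / a) := by ring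
          rw [e1, e2] at hmain
          have hp : 0 < κ ^ 2 * r := mul_pos (by positivity) hrp
          have : r / a ≤ 1 / 2 := by
            rw [div_le_iff₀ pos]; linarith only [hra]
          nlinarith only [this, hmain, hp]
        have hm0 : m = 0 := by
          rcases mul_eq_zero.1 hκ0 with h | h
          · exact absurd h (tc.ne s (Finset.mem_insert_self s S))
          · exact h
        rw [hm, ip_I] at hm0
        exact tc.np s (Finset.mem_insert_self s S) q (Finset.mem_insert_of_mem hq) hsq (by linarith)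
      · obtain ⟨g, hg⟩ := H.lm _ (hSp hF) hl h4 hU
        exact hM ⟨hSX, h3, _, g, hSp hF, hg, hSt, Or.inr ⟨hl, h4⟩⟩
    have hpL : 0 < L / 2 := by linarith
    rw [haL] at hf'
    rw [hf'] at f3 hinner
    exact ⟨_, hVx hF, hSX hq, hpL, f3, hinner, rfl⟩

end Pool.Agent.XQ.H14

namespace Pool.Agent.XQ

theorem alx (hvxx : VxxStatement) (hnlc : NlcStatement) : AlxStatement := H14.alx hvxx hnlc

end Pool.Agent.XQ
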