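import Pool.Agent.Helper16_XQ.StmtG
import Pool.Agent.Helper69_AEU.Lam
import Pool.Agent.Helper51_AEU.Alt
import Pool.Agent.Helper40_AEU.Ell
import Pool.Agent.Helper72_AEU.ACT

/-!
Squad XQ, modules NLC and NKP.
-/

set_option autoImplicit false

namespace Pool.Agent.XQ.H14

open MeasureTheory Complex Filter Topology Pool.Agent.H62T
open Pool.Agent.H16F (Sublin)
open Pool.Agent.AEU

theorem mem_touch {X : Finset HP} {h : ℂ → ℝ} {s : HP} : s ∈ touch X h ↔ s ∈ X ∧ h s.1 = s.2 :=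
  Finset.mem_filter

open Classical in
theorem mem_er {X S : Finset HP} {T : Finset (Finset HP)} {c : Finset HP → HP → ℝ} {t : HP} :
    t ∈ er X T c S ↔ t ∈ X ∧ t ∉ S ∧ insert t S ∈ T ∧ 0 < c (insert t S) t := by
  unfold er
  rw [Finset.mem_filter]

theorem mem_rlx {X S : Finset HP} {T : Finset (Finset HP)} {c : Finset HP → HP → ℝ} {t : HP} :
    t ∈ rlx X T c S ↔ t ∈ X ∧ t ∉ er X T c S := by
  unfold rlx
  rw [Finset.mem_sdiff]

theorem sub_rlx {X S : Finset HP} {T : Finset (Finset HP)} {c : Finset HP → HP → ℝ}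
    (h : S ⊆ X) : S ⊆ rlx X T c S := fun s hs =>
  mem_rlx.2 ⟨h hs, fun he => (mem_er.1 he).2.1 hs⟩

/-- part (1) -/
theorem nlc1 {X Y : Finset HP} {L : ℝ} {T : Finset (Finset HP)} {c : Finset HP → HP → ℝ}
    {K : Finset HP → ℂ → ℝ} (H : Half X Y L T c K) {S : Finset HP} (hSX : S ⊆ X)
    (h3 : S.card = 3) (hM : ¬ MTr X Y L S) (hTB : ¬ TB T c S) {h : ℂ → ℝ} (hs : Sublin h)
    (hF : Fits (rlx X T c S) h) (hS : S ⊆ touch X h) (hl : lam h ≤ L) :
    Fits X h ∧ touch (rlx X T c S) h = S := by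
  have hfit : Fits X h := by
    intro t ht
    by_contra hcon
    have hgt := not_le.1 hcon
    have her : t ∈ er X T c S := by
      by_contra hn
      exact absurd (hF t (mem_rlx.2 ⟨ht, hn⟩)) (not_le.2 hgt)
    obtain ⟨-, htS, hT, hc⟩ := mem_er.1 her
    obtain ⟨-, tc, -⟩ := H.t _ hT
    have := tc.uniq h hs (fun s hs' => by
      rcases Finset.mem_insert.1 hs' with rfl | hs'
      · exact mul_nonneg hc.le (by linarith)
      · rw [(mem_touch.1 (hS hs')).2, sub_self, mul_zero]) hl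
    rw [this] at hgt
    exact absurd (tc.fits t ht) (not_le.2 hgt)
  refine ⟨hfit, ?_⟩
  refine Finset.Subset.antisymm (fun t ht => ?_) (fun s hs' => mem_touch.2
    ⟨sub_rlx hSX hs', (mem_touch.1 (hS hs')).2⟩)
  by_contra htS
  obtain ⟨htr, hte⟩ := mem_touch.1 ht
  obtain ⟨htX, hter⟩ := mem_rlx.1 htr
  have htt : t ∈ touch X h := mem_touch.2 ⟨htX, hte⟩
  have hins : insert t S ⊆ touch X h := Finset.insert_subset htt hS
  have hc4 : (insert t S).card = 4 := by rw [Finset.card_insert_of_notMem htS, h3]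
  have h4 : 4 ≤ (touch X h).card := hc4 ▸ Finset.card_le_card hins
  have hsp : Special X h := ⟨hs, hfit, by omega, Or.inr h4⟩
  rcases lt_or_eq_of_le hl with hlt | heq
  · obtain ⟨g, hg⟩ := H.env.all h hsp hlt
    exact hM ⟨hSX, h3, h, g, hsp, hg, hS, Or.inl hlt⟩
  · by_cases hU : Unl X Y h
    · obtain ⟨hFT, hK⟩ := H.t' h hU heq h4
      obtain ⟨-, tc, -⟩ := H.t _ hFT
      have hF4 := tc.card
      have e : insert t S = touch X h := Finset.eq_of_subset_of_card_le hins (by omega)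
      rw [← e] at hFT tc
      rcases lt_or_gt_of_ne (tc.ne t (Finset.mem_insert_self t S)) with hneg | hpos
      · refine hTB ⟨_, hFT, t, Finset.mem_insert_self t S, ?_, hneg⟩
        rw [Finset.erase_insert htS]
      · exact hter (mem_er.2 ⟨htX, htS, hFT, hpos⟩)
    · obtain ⟨g, hg⟩ := H.lm h hsp heq h4 hU
      exact hM ⟨hSX, h3, h, g, hsp, hg, hS, Or.inr ⟨heq, h4⟩⟩

theorem nlc (hexx : ExxStatement) : NlcStatement := by
  intro X Y L T c K H S hSX h3 hNp hLe hM hTB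
  refine ⟨fun h hs hF hS hl => nlc1 H hSX h3 hM hTB hs hF hS hl, ?_⟩
  have hSr : S ⊆ rlx X T c S := sub_rlx hSX
  obtain ⟨δ, hδ, hE⟩ := hexx (rlx X T c S) (fun s hs => H.env.pg.unit s (mem_rlx.1 hs).1) S L hSr
    h3 hNp (by
      obtain ⟨h, hs, hF, hS, hl⟩ := hLe
      exact ⟨h, hs, fun s hs' => hF s (mem_rlx.1 hs').1,
        fun s hs' => mem_touch.2 ⟨hSr hs', (mem_touch.1 (hS hs')).2⟩, hl⟩)
    (fun h hs hF hS hl => (nlc1 H hSX h3 hM hTB hs hF
      (fun s hs' => mem_touch.2 ⟨hSX hs', (mem_touch.1 (hS hs')).2⟩) hl).2)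
  exact ⟨δ, hδ, AEU.H51.evn AEU.H69.lamS _ S L δ hSr hE⟩

/-! ### NKP -/

theorem card3 {a b c : HP} (h : ({a, b, c} : Finset HP).card = 3) : a ≠ b ∧ a ≠ c ∧ b ≠ c := by
  refine ⟨?_, ?_, ?_⟩
  · rintro rfl
    have : ({a, a, c} : Finset HP).card ≤ 2 := by
      rw [Finset.insert_eq_of_mem (by simp)]
      exact Finset.card_le_two
    omega
  · rintro rfl
    have : ({a, b, a} : Finset HP).card ≤ 2 := by
      rw [Finset.insert_eq_of_mem (by simp)]
      exact Finset.card_le_two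
    omega
  · rintro rfl
    have : ({a, b, b} : Finset HP).card ≤ 2 := by
      rw [Finset.insert_eq_of_mem (a := b) (by simp)]
      exact Finset.card_le_two
    omega

theorem tri_of {P : Finset HP} {a b c : HP} (hS : ({a, b, c} : Finset HP) ⊆ P)
    (h : ({a, b, c} : Finset HP).card = 3) : Tri P a b c := by
  obtain ⟨h1, h2, h3⟩ := card3 h
  exact ⟨hS (by simp), hS (by simp), hS (by simp), h1, h2, h3⟩

/-- the data of a new triple -/
inductive NewK (P S : Finset HP) (L : ℝ) : Prop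
  | gh (a b c : HP) (h : Tri P a b c) (e : S = {a, b, c}) (l : ell3 a b c = L) : NewK P S L
  | A (i j k : HP) (h : Tri P i j k) (e : S = {i, j, k}) (l : eA i j k = L) : NewK P S L
  | B (i j q : HP) (h : Tri P i j q) (e : S = {i, j, q}) (l : eB i j q = L) : NewK P S L

theorem newK {P S : Finset HP} {L : ℝ} (hell : EllStatement) (hL : 0 < L) (hS : S ⊆ P)
    (hk : KindP S L) (ho : ¬ Old S L) : NewK P S L := by
  rcases hk with h | h | ⟨c, c', i, j, k, rfl, h3, hA⟩ | ⟨c, a, b, i, j, q, rfl, h3, hB, -⟩ |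
    ⟨c, a, b, i, j, q, rfl, h3, hB, -⟩
  · exact absurd h ho
  · obtain ⟨a, b, c, hab, hac, hbc, rfl⟩ := Finset.card_eq_three.1 h.card
    refine NewK.gh a b c (tri_of hS h.card) rfl ?_
    rw [← hell.1 a b c hab hac hbc]
    exact h.len
  · exact NewK.A i j k (tri_of hS h3) rfl hA.len
  · refine NewK.B i j q (tri_of hS h3) rfl ?_
    unfold eB
    rw [hB.len, abs_of_pos (by linarith)]
    ring
  · refine NewK.B i j q (tri_of hS h3) rfl ?_
    unfold eB
    rw [hB.len, abs_of_pos (by linarith)]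
    ring

theorem newK_uniq {P S S' : Finset HP} {L : ℝ} (hg : G2 P) (h : NewK P S L) (h' : NewK P S' L) :
    S = S' := by
  rcases h with ⟨a, b, c, ht, rfl, hl⟩ | ⟨i, j, k, ht, rfl, hl⟩ | ⟨i, j, q, ht, rfl, hl⟩ <;>
  rcases h' with ⟨a', b', c', ht', rfl, hl'⟩ | ⟨i', j', k', ht', rfl, hl'⟩ |
    ⟨i', j', q', ht', rfl, hl'⟩
  · have := hg.ss a b c a' b' c' ht ht' (hl.trans hl'.symm)
    ext s
    simp only [Finset.mem_insert, Finset.mem_singleton]
    exact this s
  · exact absurd (hl.trans hl'.symm) (hg.sa a b c i' j' k' ht ht')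
  · exact absurd (hl.trans hl'.symm) (hg.sb a b c i' j' q' ht ht')
  · exact absurd (hl'.trans hl.symm) (hg.sa a' b' c' i j k ht' ht)
  · obtain ⟨rfl, ⟨rfl, rfl⟩ | ⟨rfl, rfl⟩⟩ := hg.aa i j k i' j' k' ht ht' (hl.trans hl'.symm)
    · rfl
    · ext s
      simp only [Finset.mem_insert, Finset.mem_singleton]
      tauto
  · exact absurd (hl.trans hl'.symm) (hg.ab i j k i' j' q' ht ht')
  · exact absurd (hl'.trans hl.symm) (hg.sb a' b' c' i j q ht' ht)
  · exact absurd (hl'.trans hl.symm) (hg.ab i' j' k' i j q ht' ht)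
  · obtain ⟨rfl, ⟨rfl, rfl⟩ | ⟨rfl, rfl⟩⟩ := hg.bb i j q i' j' q' ht ht' (hl.trans hl'.symm)
    · rfl
    · ext s
      simp only [Finset.mem_insert, Finset.mem_singleton]
      tauto

theorem nkp (hell : EllStatement) (hnkx : NkxStatement) : NkpStatement := by
  intro P Y L T c K hG H
  refine ⟨fun S hS h3 hLe hM hTB => ?_, fun S hS S' hS' hk hk' ho ho' => ?_⟩
  · have hNp : Np S := by
      intro s hs t ht hst
      exact AEU.H51.dt_ne (hG.gen.pg.unit s (hS hs)) (hG.gen.pg.unit t (hS ht))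
        (hG.gen.g1.lt1 s (hS hs) t (hS ht) hst)
    obtain ⟨hk, -⟩ := hnkx P Y L T c K H S hS h3 hNp hLe hM hTB
    rcases hk with hk | ⟨c', i, j, k, rfl, -, -, -, -, -, -, -, h0, -⟩ |
      ⟨a, b, i, j, q, rfl, -, hB⟩ | ⟨i, j, q, c', a, rfl, -, hB, -⟩
    · exact hk
    · obtain ⟨-, -, hjk⟩ := card3 h3
      exact absurd h0 (hG.gen.g1.ne0 j (hS (by simp)) k (hS (by simp)) hjk)
    · obtain ⟨hij, -, -⟩ := card3 h3
      exact absurd hB.ij (hG.gen.g1.ne0 i (hS (by simp)) j (hS (by simp)) hij)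
    · obtain ⟨hij, hiq, hjq⟩ := card3 h3
      have := hG.gen.g1.inj i (hS (by simp)) j (hS (by simp)) j (hS (by simp)) q (hS (by simp))
        hij hjq (by rw [hB.ij, hB.jq])
      rcases this with ⟨h1, h2⟩ | ⟨h1, h2⟩
      · exact absurd h1 hij
      · exact absurd h1 hiq
  · exact newK_uniq hG.gen.g2 (newK hell H.L0 hS hk ho) (newK hell H.L0 hS' hk' ho')

end Pool.Agent.XQ.H14

namespace Pool.Agent.XQ

theorem nlc (hexx : ExxStatement) : NlcStatement := H14.nlc hexx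

theorem nkp (hnkx : NkxStatement) : NkpStatement :=
  H14.nkp (Pool.Agent.AEU.H40.ell Pool.Agent.AEU.H72.act) hnkx

end Pool.Agent.XQ
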