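import Pool.Agent.Helper14_XQ.Nlc

/-!
Squad XQ, module SPX.
-/

set_option autoImplicit false

namespace Pool.Agent.XQ.H14

open MeasureTheory Complex Filter Topology Pool.Agent.H62T
open Pool.Agent.H16F (Sublin)
open Pool.Agent.AEU

/-- the minimum of finitely many positive numbers -/
theorem fin_min {α : Type} (A : Finset α) (C : α → ℝ → Prop)
    (mono : ∀ a δ δ', δ' ≤ δ → C a δ → C a δ') (h : ∀ a ∈ A, ∃ δ > 0, C a δ) :
    ∃ δ > 0, ∀ a ∈ A, C a δ := by
  classical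
  induction A using Finset.induction_on with
  | empty => exact ⟨1, one_pos, by simp⟩
  | insert a A ha ih =>
    obtain ⟨δ, hδ, h1⟩ := ih fun b hb => h b (Finset.mem_insert_of_mem hb)
    obtain ⟨δ', hδ', h2⟩ := h a (Finset.mem_insert_self a A)
    refine ⟨min δ δ', lt_min hδ hδ', fun b hb => ?_⟩
    rcases Finset.mem_insert.1 hb with rfl | hb
    · exact mono _ _ _ (min_le_right _ _) h2
    · exact mono _ _ _ (min_le_left _ _) (h1 b hb)

theorem ev_body {h : ℂ → ℝ} (hs : Sublin h) {σ : ℝ} (h0 : 0 < σ) (h1 : σ ≤ 1) (x : ℂ) :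
    Sublin (fun w => σ * h w + ip w x) ∧ lam (fun w => σ * h w + ip w x) ≤ lam h := by
  constructor
  · constructor
    · intro a b
      have := hs.1 a b
      have e : ip (a + b) x = ip a x + ip b x := by
        simp only [ip, Complex.add_re, Complex.add_im]; ring
      show σ * h (a + b) + ip (a + b) x ≤ (σ * h a + ip a x) + (σ * h b + ip b x)
      rw [e]
      nlinarith
    · intro t a ht
      have := hs.2 t a ht
      have e : ip ((t : ℂ) * a) x = t * ip a x := by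
        simp only [ip, Complex.mul_re, Complex.mul_im, Complex.ofReal_re, Complex.ofReal_im]; ring
      show σ * h (t * a) + ip (t * a) x = t * (σ * h a + ip a x)
      rw [e, this]
      ring
  · have hl := AEU.H69.lamS
    have e := hl.1 h h hs hs σ 0 x
    have e' : lam (fun w => σ * h w + ip w x) = σ * lam h := by
      have : (fun w => σ * h w + ip w x) = fun w => σ * h w + 0 * h w + ip w x := by
        funext w; ring
      rw [this, e]; ring
    have h0' := hl.2.2.1 h hs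
    rw [e']
    nlinarith

open Classical in
/-- one side of the splitting -/
theorem part_ex (htbm : TbmStatement) (hutx : UtxStatement) (hnlc : NlcStatement)
    (hfrx : FrxStatement) {X Y : Finset HP} {L : ℝ} {T : Finset (Finset HP)}
    {c : Finset HP → HP → ℝ} {K : Finset HP → ℂ → ℝ} (H : Half X Y L T c K)
    {M N : Finset (Finset HP)} (hM : ∀ S, S ∈ M ↔ MTr X Y L S)
    (hN : ∀ S, S ∈ N ↔ S ∈ X.powersetCard 3 ∧ Np S ∧ Le X S L ∧ ¬ MTr X Y L S ∧ ¬ TB T c S)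
    (hnp : ∀ S, MTr X Y L S → Np S)
    (hpar : ∀ a ∈ X, ∀ a' ∈ X, a ≠ a' → dt a.1 a'.1 = 0 → ¬ FacePair X L a a' →
      ∃ δ > 0, ∀ h, Sublin h → Fits X h → lam h < L + δ → ¬ (a ∈ touch X h ∧ a' ∈ touch X h))
    (hface : ∀ a a', FacePair X L a a' → ∃ x y : ℂ, x ≠ y ∧ x ∈ Cl X ∧ y ∈ Cl X ∧
      ip a.1 x = a.2 ∧ ip a.1 y = a.2 ∧ x - ((L / 2 : ℝ) : ℂ) * a.1 ∈ Cl X ∧
      y - ((L / 2 : ℝ) : ℂ) * a.1 ∈ Cl X) :
    ∃ δ₀ > 0, ∀ δ, δ ≤ δ₀ → Part X L δ M N T c K := by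
  -- the four numbers
  obtain ⟨δ₁, hδ₁, h1⟩ := fin_min N
    (fun S δ => ∀ h, Sublin h → lam h < L + δ → (Ev (rlx X T c S) S h ↔ EvL S h))
    (fun S δ δ' hd h1 h hs hl => h1 h hs (by linarith)) (fun S hS => by
      obtain ⟨hS1, hS2, hS3, hS4, hS5⟩ := (hN S).1 hS
      obtain ⟨hS6, hS7⟩ := Finset.mem_powersetCard.1 hS1
      exact (hnlc X Y L T c K H S hS6 hS7 hS2 hS3 hS4 hS5).2)
  obtain ⟨δ₂, hδ₂, h2⟩ := fin_min ((X.powersetCard 3).filter fun S => ¬ Le X S L)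
    (fun S δ => ∀ h, Sublin h → Fits X h → S ⊆ touch X h → L + δ ≤ lam h)
    (fun S δ δ' hd h1 h hs hf hS => by linarith [h1 h hs hf hS]) (fun S hS => by
      obtain ⟨hS1, hS2⟩ := Finset.mem_filter.1 hS
      obtain ⟨hS6, hS7⟩ := Finset.mem_powersetCard.1 hS1
      exact hutx X H.env.pg S L hS6 hS7 hS2)
  obtain ⟨δ₃, hδ₃, h3⟩ := fin_min T
    (fun F δ => ∀ h, Sublin h → lam h < L + δ → (∀ s ∈ F, 0 ≤ c F s * (h s.1 - s.2)) →
      ∀ s ∈ X, s ∉ F → h s.1 < s.2)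
    (fun S δ δ' hd h1 h hs hl => h1 h hs (by linarith)) (fun F hF => by
      obtain ⟨h1, h2, h3⟩ := H.t F hF
      exact hfrx X F (K F) L (c F) H.env.pg h1 h2)
  obtain ⟨δ₄, hδ₄, h4⟩ := fin_min ((X ×ˢ X).filter fun p => p.1 ≠ p.2 ∧ dt p.1.1 p.2.1 = 0 ∧
      ¬ FacePair X L p.1 p.2)
    (fun p δ => ∀ h, Sublin h → Fits X h → lam h < L + δ → ¬ (p.1 ∈ touch X h ∧ p.2 ∈ touch X h))
    (fun S δ δ' hd h1 h hs hf hl => h1 h hs hf (by linarith)) (fun p hp => by
      obtain ⟨h1, h2, h3, h4⟩ := Finset.mem_filter.1 hp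
      obtain ⟨h5, h6⟩ := Finset.mem_product.1 h1
      exact hpar p.1 h5 p.2 h6 h2 h3 h4)
  refine ⟨min (min δ₁ δ₂) (min δ₃ δ₄), lt_min (lt_min hδ₁ hδ₂) (lt_min hδ₃ hδ₄), fun δ hδ => ?_⟩
  have e1 : δ ≤ δ₁ := hδ.trans ((min_le_left _ _).trans (min_le_left _ _))
  have e2 : δ ≤ δ₂ := hδ.trans ((min_le_left _ _).trans (min_le_right _ _))
  have e3 : δ ≤ δ₃ := hδ.trans ((min_le_right _ _).trans (min_le_left _ _))
  have e4 : δ ≤ δ₄ := hδ.trans ((min_le_right _ _).trans (min_le_right _ _))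
  refine
    { sM := ?_, sN := ?_, nM := ?_, nN := ?_, torn := ?_, dMN := ?_, dM := ?_, dN := ?_,
      tin := ?_, tinj := ?_, loc := ?_, out := ?_, far := ?_, par := ?_, face := hface }
  · intro S hS
    obtain ⟨h1, h2, -⟩ := (hM S).1 hS
    exact Finset.mem_powersetCard.2 ⟨h1, h2⟩
  · intro S hS
    exact ((hN S).1 hS).1
  · intro S hS
    exact hnp S ((hM S).1 hS)
  · intro S hS
    exact ((hN S).1 hS).2.1
  · intro F hF
    obtain ⟨h1, h2, h3⟩ := H.t F hF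
    exact ⟨h1, h2⟩
  · rw [Finset.disjoint_left]
    intro S hS hS'
    exact ((hN S).1 hS').2.2.2.1 ((hM S).1 hS)
  · rintro S hS ⟨F, hF, t, ht, rfl, hc⟩
    obtain ⟨h1, h2, h3⟩ := H.t F hF
    exact (htbm X Y F (K F) L (c F) H.env.pg h1 h2 h3 t ht hc).2.2 ((hM _).1 hS)
  · intro S hS
    exact ((hN S).1 hS).2.2.2.2
  · intro F hF t ht hc
    obtain ⟨h1, h2, h3⟩ := H.t F hF
    by_cases hm : MTr X Y L (F.erase t)
    · exact Finset.mem_union_left _ ((hM _).2 hm)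
    · refine Finset.mem_union_right _ ((hN _).2 ⟨Finset.mem_powersetCard.2
        ⟨(Finset.erase_subset _ _).trans h1, ?_⟩, ?_, ?_, hm, ?_⟩)
      · rw [Finset.card_erase_of_mem ht, h2.card]
      · intro s hs r hr
        exact h2.np s (Finset.mem_of_mem_erase hs) r (Finset.mem_of_mem_erase hr)
      · obtain ⟨h, a1, a2, a3, a4⟩ := h2.lt t ht hc
        exact ⟨h, a1, a2, a3, a4.le⟩
      · rintro ⟨F', hF', t', ht', he, hc'⟩
        obtain ⟨b1, b2, b3⟩ := H.t F' hF'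
        refine (htbm X Y F' (K F') L (c F') H.env.pg b1 b2 b3 t' ht' hc').1 ?_
        rw [← he]
        exact h2.lt t ht hc
  · intro F hF F' hF' t ht t' ht' hc hc' he
    obtain ⟨h1, h2, h3⟩ := H.t F hF
    obtain ⟨b1, b2, b3⟩ := H.t F' hF'
    have hK := (htbm X Y F' (K F') L (c F') H.env.pg b1 b2 b3 t' ht' hc').2.1 (K F) h2.sub
      h2.fits (by rw [← he, h2.tch]; exact Finset.erase_subset _ _) h2.len.le
    have hFF : F = F' := by rw [← h2.tch, ← b2.tch, hK]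
    subst hFF
    refine ⟨rfl, ?_⟩
    by_contra hne
    have : t' ∈ F.erase t := Finset.mem_erase.2 ⟨fun h => hne h.symm, ht'⟩
    rw [he] at this
    exact Finset.notMem_erase _ _ this
  · intro S hS h hs hl
    exact h1 S hS h hs (by linarith)
  · rintro S hS hNp hSM hSN hTB h hs hl ⟨σ, x, h0, h01, hf, ht⟩
    obtain ⟨hb1, hb2⟩ := ev_body hs h0 h01 x
    have hnl : ¬ Le X S L := fun hL => hSN ((hN S).2 ⟨hS, hNp, hL, fun hm => hSM ((hM S).2 hm),
      hTB⟩)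
    have := h2 S (Finset.mem_filter.2 ⟨hS, hnl⟩) _ hb1 hf (by rw [ht])
    linarith
  · intro F hF h hs hl
    exact h3 F hF h hs (by linarith)
  · intro a ha a' ha' hne hd hfp h hs hf hl
    exact h4 (a, a') (Finset.mem_filter.2 ⟨Finset.mem_product.2 ⟨ha, ha'⟩, hne, hd, hfp⟩) h hs hf
      (by linarith)

theorem np_of {P : Finset HP} (hP : Pg P) (hG : G1 P) {S : Finset HP} (hS : S ⊆ P) : Np S := by
  intro s hs t ht hst
  exact AEU.H51.dt_ne (hP.unit s (hS hs)) (hP.unit t (hS ht)) (hG.lt1 s (hS hs) t (hS ht) hst)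

open Classical in
theorem spx (hevr : EvrStatement) (hmbj : MbjStatement) (htbm : TbmStatement)
    (hutx : UtxStatement) (hnlc : NlcStatement) (hnkx : NkxStatement) (hnkp : NkpStatement)
    (hfrx : FrxStatement) (hprd : PrdStatement) (hfcx : FcxStatement) (hr9x : R9xStatement)
    (hgcx : GcxStatement) (hlmx : LmxStatement) : SpxStatement := by
  intro P Q L TP TQ cP cQ KP KQ H
  have gx := H.gx
  have pgP := gx.gen.pg
  have g1P := gx.gen.g1
  have env := hevr P Q L pgP g1P H.pq H.hyp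
  obtain ⟨lm1, lm2⟩ := hlmx P Q L H.hyp gx H.pq
  have HfP : Half P Q L TP cP KP :=
    { env := env, L0 := H.L0, c4 := H.c4,
      t := fun F hF => ⟨(H.tP F hF).1, (H.tP F hF).2.1, (H.tP F hF).2.2.1⟩,
      t' := H.tP', lm := lm1 }
  have HfQ : Half Q P L TQ cQ KQ :=
    { env := env.symm, L0 := H.L0, c4 := H.c4',
      t := fun F hF => ⟨(H.tQ F hF).1, (H.tQ F hF).2.1, (H.tQ F hF).2.2.1⟩,
      t' := H.tQ', lm := lm2 }
  obtain ⟨γ, m1, m2, m3, m4, m5⟩ := hmbj P Q L TP TQ cP cQ KP KQ H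
  set M : Finset (Finset HP) := (P.powersetCard 3).filter fun S => MTr P Q L S with hMdef
  set NP : Finset (Finset HP) := (P.powersetCard 3).filter fun S =>
    Np S ∧ Le P S L ∧ ¬ MTr P Q L S ∧ ¬ TB TP cP S with hNPdef
  set NQ : Finset (Finset HP) := (Q.powersetCard 3).filter fun S =>
    Np S ∧ Le Q S L ∧ ¬ MTr Q P L S ∧ ¬ TB TQ cQ S with hNQdef
  have hM : ∀ S, S ∈ M ↔ MTr P Q L S := by
    intro S
    rw [hMdef, Finset.mem_filter]
    exact ⟨fun h => h.2, fun h => ⟨Finset.mem_powersetCard.2 ⟨h.1, h.2.1⟩, h⟩⟩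
  have hNP : ∀ S, S ∈ NP ↔
      S ∈ P.powersetCard 3 ∧ Np S ∧ Le P S L ∧ ¬ MTr P Q L S ∧ ¬ TB TP cP S := by
    intro S
    rw [hNPdef, Finset.mem_filter]
  have hNQ : ∀ S, S ∈ NQ ↔
      S ∈ Q.powersetCard 3 ∧ Np S ∧ Le Q S L ∧ ¬ MTr Q P L S ∧ ¬ TB TQ cQ S := by
    intro S
    rw [hNQdef, Finset.mem_filter]
  have hMQ : ∀ S, S ∈ (M.image fun S => S.image (mv (γ S))) ↔ MTr Q P L S := by
    intro S
    rw [Finset.mem_image]
    constructor
    · rintro ⟨S', hS', rfl⟩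
      exact m1 S' ((hM S').1 hS')
    · intro hS
      obtain ⟨S', h1, h2⟩ := m2 S hS
      exact ⟨S', (hM S').2 h1, h2⟩
  obtain ⟨δ₁, hδ₁, pP⟩ := part_ex htbm hutx hnlc hfrx HfP hM hNP
    (fun S hS => np_of pgP g1P hS.1)
    (fun a ha a' ha' hne hd => absurd hd (AEU.H51.dt_ne (pgP.unit a ha) (pgP.unit a' ha')
      (g1P.lt1 a ha a' ha' hne)))
    (fun a a' hf => by
      exfalso
      have hne : a ≠ a' := by
        rintro rfl
        have h0 : a.1 = -a.1 := hf.opp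
        have h1 : a.1 = 0 := by
          have := congrArg (fun z => z + a.1) h0
          simp only [neg_add_cancel] at this
          have h2 : (2 : ℂ) * a.1 = 0 := by rw [two_mul]; exact this
          exact (mul_eq_zero.1 h2).resolve_left two_ne_zero
        have h2 := pgP.unit a hf.mem
        rw [h1, norm_zero] at h2
        exact zero_ne_one h2
      have h1 := AEU.H51.dt_ne (pgP.unit a hf.mem) (pgP.unit a' hf.mem')
        (g1P.lt1 a hf.mem a' hf.mem' hne)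
      apply h1
      rw [hf.opp]
      simp only [dt, Complex.neg_re, Complex.neg_im]
      ring)
  obtain ⟨δ₂, hδ₂, pQ⟩ := part_ex htbm hutx hnlc hfrx HfQ hMQ hNQ
    (fun S' hS' => by
      obtain ⟨S, h1, rfl⟩ := m2 S' hS'
      have hS := np_of pgP g1P h1.1
      intro s hs t ht hst
      obtain ⟨s₀, hs₀, rfl⟩ := Finset.mem_image.1 hs
      obtain ⟨t₀, ht₀, rfl⟩ := Finset.mem_image.1 ht
      have hne : s₀ ≠ t₀ := by rintro rfl; exact hst rfl
      have e := AEU.H72.act.2.2.2.2.2.2.2.2.1 (γ S) s₀ t₀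
      intro h0
      rw [h0, abs_zero] at e
      exact hS s₀ hs₀ t₀ ht₀ hne (abs_eq_zero.1 e.symm))
    (fun a ha a' ha' hne hd hf => hprd P Q L H.hyp gx H.pq H.L0 a ha a' ha' hne hd hf)
    (fun a a' hf => hfcx P Q L H.hyp gx H.pq H.L0 a a' hf)
  obtain ⟨δ₃, hδ₃, hmat⟩ := fin_min M
    (fun S δ => ∀ h, Sublin h → lam h < L + δ → (Ev (rlx P TP cP S) S h ↔
        Ev (rlx Q TQ cQ (S.image (mv (γ S)))) (S.image (mv (γ S))) (mb (γ S) h)))
    (fun S δ δ' hd h1 h hs hl => h1 h hs (by linarith)) (fun S hS => m4 S ((hM S).1 hS))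
  refine ⟨min δ₃ (min δ₁ δ₂), M, NP, NQ, γ, ?_, hM, hNP, hNQ⟩
  exact
    { L0 := H.L0
      δ0 := lt_min hδ₃ (lt_min hδ₁ hδ₂)
      pP := pP _ ((min_le_right _ _).trans (min_le_left _ _))
      pQ := pQ _ ((min_le_right _ _).trans (min_le_right _ _))
      inj := fun S hS S' hS' he => m3 S S' ((hM S).1 hS) ((hM S').1 hS') he
      mat := fun S hS h hs hl => hmat S hS h hs (by
        have := min_le_left δ₃ (min δ₁ δ₂)
        linarith)
      kP := by
        intro S hS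
        obtain ⟨h1, h2, h3, h4, h5⟩ := (hNP S).1 hS
        obtain ⟨h6, h7⟩ := Finset.mem_powersetCard.1 h1
        exact (hnkp P Q L TP cP KP gx HfP).1 S h6 h7 h3 h4 h5
      kQ := by
        intro S hS
        obtain ⟨h1, h2, h3, h4, h5⟩ := (hNQ S).1 hS
        obtain ⟨h6, h7⟩ := Finset.mem_powersetCard.1 h1
        exact (hnkx Q P L TQ cQ KQ HfQ S h6 h7 h2 h3 h4 h5).1
      one := by
        intro S hS S' hS' ho ho'
        obtain ⟨h1, h2, h3, h4, h5⟩ := (hNP S).1 hS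
        obtain ⟨h6, h7⟩ := Finset.mem_powersetCard.1 h1
        obtain ⟨b1, b2, b3, b4, b5⟩ := (hNP S').1 hS'
        obtain ⟨b6, b7⟩ := Finset.mem_powersetCard.1 b1
        obtain ⟨k1, k2⟩ := hnkp P Q L TP cP KP gx HfP
        exact k2 S h6 S' b6 (k1 S h6 h7 h3 h4 h5) (k1 S' b6 b7 b3 b4 b5) ho ho'
      r90 := by
        rintro S hS S' hS' ⟨a, b, hk⟩ ⟨a', b', hk'⟩
        obtain ⟨h1, h2, h3, h4, h5⟩ := (hNQ S).1 hS
        obtain ⟨h6, h7⟩ := Finset.mem_powersetCard.1 h1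
        obtain ⟨b1, b2, b3, b4, b5⟩ := (hNQ S').1 hS'
        obtain ⟨b6, b7⟩ := Finset.mem_powersetCard.1 b1
        obtain ⟨h, i, j, q, v, d, ht, h0, hl, rfl⟩ :=
          (hnkx Q P L TQ cQ KQ HfQ S h6 h7 h2 h3 h4 h5).2.1 a b hk
        obtain ⟨h', i', j', q', v', d', ht', h0', hl', rfl⟩ :=
          (hnkx Q P L TQ cQ KQ HfQ S' b6 b7 b2 b3 b4 b5).2.1 a' b' hk'
        exact hr9x P Q L H.hyp gx H.pq H.L0 h i j q v d h' i' j' q' v' d' ht h0 hl ht' h0' hl'
      old := fun l hl => hgcx P Q L TP TQ cP cQ KP KQ H NP NQ hNP hNQ l hl _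
      tP := fun F hF => (H.tP F hF).2.2.2
      tE := H.tE
      t3 := H.t3
      tQ := fun F hF => (H.tQ F hF).2.2.2
      t34 := H.t34 }

end Pool.Agent.XQ.H14

namespace Pool.Agent.XQ

theorem spx (hevr : EvrStatement) (hmbj : MbjStatement) (htbm : TbmStatement)
    (hutx : UtxStatement) (hnlc : NlcStatement) (hnkx : NkxStatement) (hnkp : NkpStatement)
    (hfrx : FrxStatement) (hprd : PrdStatement) (hfcx : FcxStatement) (hr9x : R9xStatement)
    (hgcx : GcxStatement) (hlmx : LmxStatement) : SpxStatement :=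
  H14.spx hevr hmbj htbm hutx hnlc hnkx hnkp hfrx hprd hfcx hr9x hgcx hlmx

end Pool.Agent.XQ
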